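import Pool.Agent.KS6_19.SU.H

/-!
# Strong unique continuation for `|∂̄u| ≤ (V + c/|z - z₀|)|u|`

`V` is in `L^p_loc` away from `z₀` (`p > 2`) and `V^q |z - z₀|^{q - 2n}` is integrable near `z₀`
(`q > 2`); for `p = q = 2n` this is `V ∈ L^{2n}_loc`. The constant `c > 0` is absolute.
-/

set_option autoImplicit false

open Filter Topology Set MeasureTheory Metric
open scoped ENNReal ContDiff

namespace Pool.Agent.Results.MP_b3ccf3_an.HardyPotential

/-- `ℂ^n` with the Euclidean norm. -/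
abbrev Cn (n : ℕ) : Type := EuclideanSpace ℂ (Fin n)

/-- `f ∈ L^s_loc(Ω)`. -/
def LpLoc {n : ℕ} {Y : Type} [NormedAddCommGroup Y] (s : ℝ) (Ω : Set (Cn n)) (f : Cn n → Y) : Prop :=
  ∀ K ⊆ Ω, IsCompact K → MemLp f (ENNReal.ofReal s) (volume.restrict K)

/-- `G` is the distributional (real) derivative of `u` in `Ω`. -/
def WeakD {n : ℕ} {Y : Type} [NormedAddCommGroup Y] [NormedSpace ℂ Y] (Ω : Set (Cn n))
    (u : Cn n → Y) (G : Cn n → Cn n →L[ℝ] Y) : Prop :=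
  ∀ φ : Cn n → ℝ, ContDiff ℝ ∞ φ → HasCompactSupport φ → tsupport φ ⊆ Ω → ∀ v : Cn n,
    ∫ x, fderiv ℝ φ x v • u x = -∫ x, φ x • G x v

/-- Euclidean norm `(∑_j ‖∂u/∂z̄_j‖²)^{1/2}`, where `∂u/∂z̄_j = (∂_{x_j} u + i ∂_{y_j} u)/2`, for the
real derivative `L` of `u`. -/
noncomputable def dbarNorm {n : ℕ} {Y : Type} [NormedAddCommGroup Y] [NormedSpace ℂ Y]
    (L : Cn n →L[ℝ] Y) : ℝ :=
  √(∑ j, ‖(1 / 2 : ℂ) • (L (EuclideanSpace.single j 1) +
    Complex.I • L (EuclideanSpace.single j Complex.I))‖ ^ 2)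

/-- `r^{-N} ∫_{B(z₀,r)} ‖u‖^s → 0` as `r → 0+`, for every `N`. -/
def Vanishes {n : ℕ} {Y : Type} [NormedAddCommGroup Y] (s : ℝ) (u : Cn n → Y) (z₀ : Cn n) : Prop :=
  ∀ N : ℕ, Tendsto (fun r : ℝ => (∫⁻ x in ball z₀ r, ‖u x‖ₑ ^ s) / ENNReal.ofReal (r ^ N))
    (𝓝[>] 0) (𝓝 0)

/-- `V ∈ L^p_loc(Ω \ {z₀})` and `∫_{B(z₀,ρ)} |V|^q |z - z₀|^{q-2n} < ∞` for some `ρ > 0`. -/
def Pot {n : ℕ} (p q : ℝ) (Ω : Set (Cn n)) (z₀ : Cn n) (V : Cn n → ℝ) : Prop :=
  LpLoc p (Ω \ {z₀}) V ∧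
    ∃ ρ > 0, ∫⁻ z in closedBall z₀ ρ, ‖V z‖ₑ ^ q * ‖z - z₀‖ₑ ^ (q - 2 * n) < ⊤

/-- Strong unique continuation at `z₀` for potentials `V + c/|z - z₀|`, in dimension `n`, for maps
into the complex Banach space `Y`. -/
def SUCP (c : ℝ) (n : ℕ) (Y : Type) [NormedAddCommGroup Y] [NormedSpace ℂ Y] : Prop :=
  ∀ (Ω : Set (Cn n)), IsOpen Ω → IsConnected Ω → ∀ z₀ ∈ Ω, ∀ p q s : ℝ, 2 < p → 2 < q → 1 ≤ s →
    ∀ (u : Cn n → Y) (G : Cn n → Cn n →L[ℝ] Y) (V : Cn n → ℝ),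
      LpLoc 1 Ω u → LpLoc 1 Ω G → WeakD Ω u G → Pot p q Ω z₀ V →
      (∀ᵐ z, z ∈ Ω → dbarNorm (G z) ≤ (V z + c / ‖z - z₀‖) * ‖u z‖) →
      Vanishes s u z₀ → ∀ᵐ z, z ∈ Ω → u z = 0

/-- There is one constant `c > 0` such that strong unique continuation holds for the potentials
`V + c/|z - z₀|` in every dimension `n ≥ 1` and for every complex Banach space of values. -/
theorem result : ∃ c : ℝ, 0 < c ∧ ∀ n : ℕ, 1 ≤ n → ∀ (Y : Type) [NormedAddCommGroup Y]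
    [NormedSpace ℂ Y] [CompleteSpace Y], SUCP c n Y := by
  · obtain ⟨c, hc⟩ := Pool.Agent.KS6_19.SU.exists_hardy
    refine ⟨c / 2, half_pos hc.1, ?_⟩
    intro n hn Y _ _ _ Ω ho hcn z₀ h0 p q s hp hq hs u G V hu hG hw hV hle hvan
    have fr : Module.finrank ℂ (Cn n) = n := by simp
    obtain ⟨hV1, ρ, ρ0, hV2⟩ := hV
    have one : ENNReal.ofReal 1 = 1 := ENNReal.ofReal_one
    -- measurability of `V`
    have mV : AEStronglyMeasurable V (volume.restrict Ω) := by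
      have hl : LocallyIntegrableOn V (Ω \ {z₀}) volume := by
        refine (locallyIntegrableOn_iff
          (ho.sdiff isClosed_singleton).isLocallyClosed).2 fun K hK cK => ?_
        have : IsFiniteMeasure (volume.restrict K) :=
          isFiniteMeasure_restrict.2 cK.measure_lt_top.ne
        exact (hV1 K hK cK).integrable (by rw [ENNReal.one_le_ofReal]; linarith)
      have h1 := hl.aestronglyMeasurable
      have hnt : Nontrivial (Cn n) := by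
        have : Nonempty (Fin n) := ⟨⟨0, hn⟩⟩
        infer_instance
      have h2 : (Ω \ {z₀} : Set (Cn n)) =ᵐ[volume] Ω := sdiff_null_ae_eq_self (measure_singleton z₀)
      rwa [Measure.restrict_congr_set h2] at h1
    refine Pool.Agent.KS6_19.SU.glob2 volume hc (V := fun z => 2 * V z) hp hq (fr.symm ▸ hn) ho
      hcn.isPreconnected h0 (G := G) (fun K sK cK => ?_) (fun K sK cK => ?_) hw
      (mV.const_mul 2) (fun K sK cK => (hV1 K sK cK).const_mul 2) ρ0 ?_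
      (hle.mono fun y hy k x => ?_) (Pool.Agent.KS6_19.SU.v1g volume hs hvan)
    · exact memLp_one_iff_integrable.1 (one ▸ hu K sK cK)
    · exact memLp_one_iff_integrable.1 (one ▸ hG K sK cK)
    · rw [fr]
      have e : ∀ y : Cn n, ‖2 * V y‖ₑ ^ q * ‖y - z₀‖ₑ ^ (q - 2 * n) =
          2 ^ q * (‖V y‖ₑ ^ q * ‖y - z₀‖ₑ ^ (q - 2 * n)) := fun y => by
        rw [enorm_mul, ENNReal.mul_rpow_of_nonneg _ _ (by linarith), mul_assoc]
        congr 2
        rw [← ofReal_norm, Real.norm_of_nonneg (by norm_num), ENNReal.ofReal_ofNat]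
      simp_rw [e]
      rw [lintegral_const_mul' _ _ (ENNReal.rpow_ne_top_of_nonneg (by linarith) (by simp))]
      exact ENNReal.mul_lt_top (ENNReal.rpow_lt_top_of_nonneg (by linarith) (by simp)) hV2
    · refine (Pool.Agent.H99.Ucp.cs2 (G y) x).trans ?_
      have := hy k
      unfold dbarNorm at this
      have e : (2 * V y + c / ‖y - z₀‖) * ‖x‖ * ‖u y‖ =
          2 * ((V y + c / 2 / ‖y - z₀‖) * ‖u y‖) * ‖x‖ := by ring
      rw [e]
      exact mul_le_mul_of_nonneg_right (mul_le_mul_of_nonneg_left this zero_le_two) (norm_nonneg x)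

end Pool.Agent.Results.MP_b3ccf3_an.HardyPotential
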