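import Pool.Agent.KS6_19.SU.G

/-!
# Failure of strong unique continuation for `|∂̄u| ≤ V|u|` with `V` in weak `L^{2n}`

For `m ≥ 2n` there are a constant `C` and a smooth `u : ℂⁿ → ℂᵐ`, flat at `0` and without zeros in
the punctured unit ball, with `|∂̄u| ≤ (C/|z|)|u|` there.
-/

set_option autoImplicit false

open Filter Topology Set MeasureTheory Metric
open scoped ENNReal ContDiff

namespace Pool.Agent.Results.MP_b3ccf3_an.WeakCriticalFails

/-- `ℂ^n` with the Euclidean norm. -/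
abbrev Cn (n : ℕ) : Type := EuclideanSpace ℂ (Fin n)

/-- Euclidean norm of all `∂u_k/∂z̄_j = (∂_{x_j} u_k + i ∂_{y_j} u_k)/2`, for real derivative `L`. -/
noncomputable def dbarNorm {n m : ℕ} (L : Cn n →L[ℝ] Cn m) : ℝ :=
  √(∑ j, ‖(1 / 2 : ℂ) • (L (EuclideanSpace.single j 1) +
    Complex.I • L (EuclideanSpace.single j Complex.I))‖ ^ 2)

/-- `V` is in weak `L^s`: `|{|V| > t}| ≤ A t^{-s}` for all `t > 0`. -/
def WeakLp {n : ℕ} (s : ℝ) (V : Cn n → ℝ) : Prop :=
  ∃ A : ℝ, ∀ t : ℝ, 0 < t → volume {z | t < |V z|} ≤ ENNReal.ofReal (A * t ^ (-s))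

theorem result (n m : ℕ) (hn : 1 ≤ n) (hm : 2 * n ≤ m) : ∃ (C : ℝ) (u : Cn n → Cn m),
    WeakLp (2 * n) (fun z : Cn n => C / ‖z‖) ∧ ContDiff ℝ ∞ u ∧
      (∀ N : ℕ, ∃ K : ℝ, ∀ z, ‖u z‖ ≤ K * ‖z‖ ^ N) ∧
      ∀ z, z ≠ 0 → ‖z‖ < 1 → u z ≠ 0 ∧ dbarNorm (fderiv ℝ u z) ≤ C / ‖z‖ * ‖u z‖ := by
  obtain ⟨e⟩ : Nonempty (Bool × Fin n ↪ Fin m) :=
    Function.Embedding.nonempty_of_card_le (by simpa using hm)
  have hob : Orthonormal ℂ (fun b : Bool × Fin n => (EuclideanSpace.single (e b) (1 : ℂ) : Cn m)) :=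
    (EuclideanSpace.orthonormal_single (𝕜 := ℂ) (ι := Fin m)).comp e e.injective
  obtain ⟨C, C0, hC⟩ := Pool.Agent.KS6_19.SU.Ex.uu_main hob
  refine ⟨n * C, _, ?_, Pool.Agent.KS6_19.SU.Ex.uu_cd _ (fun b => (hob.1 b).le), fun N => ?_,
    fun z z0 z1 => ⟨(hC z z0 z1).1, ?_⟩⟩
  · set D := (n : ℝ) * C
    have D0 : 0 ≤ D := by positivity
    refine ⟨D ^ (2 * n) * (volume (ball (0 : Cn n) 1)).toReal, fun t t0 => ?_⟩
    have hsub : {z : Cn n | t < |D / ‖z‖|} ⊆ ball 0 (D / t) := by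
      intro z hz
      rw [mem_ofPred_eq, abs_of_nonneg (by positivity)] at hz
      rcases (norm_nonneg z).eq_or_lt with h | h
      · rw [← h, div_zero] at hz
        exact absurd hz (not_lt.2 t0.le)
      · rw [mem_ball_zero_iff, lt_div_iff₀ t0]
        rw [lt_div_iff₀ h] at hz
        linarith
    refine (measure_mono hsub).trans ?_
    have : Nontrivial (Cn n) := by
      have : Nonempty (Fin n) := ⟨⟨0, hn⟩⟩
      infer_instance
    rw [Measure.addHaar_ball _ _ (by positivity)]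
    have fr : Module.finrank ℝ (Cn n) = 2 * n := by
      rw [← Module.finrank_mul_finrank ℝ ℂ (Cn n), Complex.finrank_real_complex]; simp
    rw [fr, ← ENNReal.ofReal_toReal (measure_ball_lt_top (μ := volume) (x := (0 : Cn n)) (r := 1)).ne,
      ← ENNReal.ofReal_mul (by positivity)]
    refine ENNReal.ofReal_le_ofReal (le_of_eq ?_)
    rw [ENNReal.toReal_ofReal (by positivity), Real.rpow_neg t0.le, div_pow,
      show ((2 : ℝ) * n) = ((2 * n : ℕ) : ℝ) by push_cast; rfl, Real.rpow_natCast]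
    ring
  · obtain ⟨K, -, hK⟩ := Pool.Agent.KS6_19.SU.Ex.uu_flat _ (fun b => (hob.1 b).le) N
    exact ⟨K, hK⟩
  · obtain ⟨-, h⟩ := hC z z0 z1
    set u := Pool.Agent.KS6_19.SU.Ex.uu
      (fun b : Bool × Fin n => (EuclideanSpace.single (e b) (1 : ℂ) : Cn m)) with hu
    have hz : 0 < ‖z‖ := norm_pos_iff.2 z0
    set M := C / ‖z‖ * ‖u z‖ with hM
    have M0 : 0 ≤ M := by positivity
    have hj : ∀ j : Fin n, ‖(1 / 2 : ℂ) • (fderiv ℝ u z (EuclideanSpace.single j 1) +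
        Complex.I • fderiv ℝ u z (EuclideanSpace.single j Complex.I))‖ ≤ M := by
      intro j
      have h1 := h (EuclideanSpace.single j (1 : ℂ))
      have e1 : Complex.I • (EuclideanSpace.single j (1 : ℂ) : Cn n) =
          EuclideanSpace.single j Complex.I := by
        ext i; by_cases h : i = j <;> simp [h]
      rw [Pool.Agent.KS6_19.SU.Ex.DD, e1] at h1
      rw [norm_smul]
      have e2 : ‖(EuclideanSpace.single j (1 : ℂ) : Cn n)‖ = 1 := by simp
      rw [e2, mul_one] at h1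
      have e3 : ‖(1 / 2 : ℂ)‖ = 1 / 2 := by simp
      rw [e3]
      linarith [norm_nonneg (fderiv ℝ u z (EuclideanSpace.single j 1) +
        Complex.I • fderiv ℝ u z (EuclideanSpace.single j Complex.I))]
    have hs : ∑ j : Fin n, ‖(1 / 2 : ℂ) • (fderiv ℝ u z (EuclideanSpace.single j 1) +
        Complex.I • fderiv ℝ u z (EuclideanSpace.single j Complex.I))‖ ^ 2 ≤ (n * M) ^ 2 := by
      calc _ ≤ ∑ j : Fin n, M ^ 2 :=
            Finset.sum_le_sum fun j _ => pow_le_pow_left₀ (norm_nonneg _) (hj j) 2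
        _ = n * M ^ 2 := by simp
        _ ≤ (n * n) * M ^ 2 := by
            refine mul_le_mul_of_nonneg_right ?_ (by positivity)
            exact_mod_cast Nat.le_mul_self n
        _ = _ := by ring
    have : dbarNorm (fderiv ℝ u z) ≤ n * M := by
      unfold dbarNorm
      exact (Real.sqrt_le_sqrt hs).trans (le_of_eq (Real.sqrt_sq (by positivity)))
    refine this.trans (le_of_eq ?_)
    rw [hM]; ring

end Pool.Agent.Results.MP_b3ccf3_an.WeakCriticalFails
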